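import Pool.Agent.Helper89.Vol.Goals

/-! # MP_cd13d2_co, packet PATH -/

set_option autoImplicit false

namespace Pool.Agent.Helper17.Vol.PkPATH

open MeasureTheory Set Pool.Agent.Helper86.Poly Pool.Agent.Helper89.Vol

/-- `br` is invariant under translations. -/
lemma br_sub (p q r t c : E 3) : br (p - c) (q - c) (r - c) (t - c) = br p q r t := by
  simp [br]

/-- `br` for a segment on the axis. -/
lemma br_axis (o e p q : E 3) (l : ℝ) (h0 : o 0 = 0) (h1 : o 1 = 0) (h2 : o 2 = 0) (e0 : e 0 = 0)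
    (e1 : e 1 = 0) (e2 : e 2 = l) : br o e p q = l * (p 0 * q 1 - p 1 * q 0) := by
  simp [br, Matrix.det_fin_three, h0, h1, h2, e0, e1, e2]
  ring

/-- Distances in coordinates. -/
lemma coord (u v : E 3) (h : ‖u - v‖ ≤ 1) :
    (u 0 - v 0) ^ 2 + (u 1 - v 1) ^ 2 + (u 2 - v 2) ^ 2 ≤ 1 := by
  have h2 := EuclideanSpace.norm_sq_eq (u - v)
  rw [Fin.sum_univ_three] at h2
  simp only [PiLp.sub_apply, Real.norm_eq_abs, sq_abs] at h2
  have h3 : ‖u - v‖ ^ 2 ≤ 1 := by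
    have := norm_nonneg (u - v)
    nlinarith
  rw [h2] at h3
  exact h3

theorem thm (h : G_PA0) (hF : G_FRM) : G_PATH := by
  intro C hC y hy
  obtain ⟨L, ε, hε, hbr, he0, he1, he2, hn1, hn0⟩ := hF (y 1 - y 0) (y 4 - y 3)
  set x : Fin 6 → E 3 := fun k => L (y k - y 0) with hx
  have hd : ∀ i j, ‖x i - x j‖ ≤ 1 := by
    intro i j
    have e : x i - x j = L (y i - y j) := by
      simp only [hx]
      rw [← map_sub]
      congr 1
      abel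
    rw [e, LinearIsometryEquiv.norm_map, ← dist_eq_norm]
    exact hy i j
  have hco : ∀ i j, (x i 0 - x j 0) ^ 2 + (x i 1 - x j 1) ^ 2 + (x i 2 - x j 2) ^ 2 ≤ 1 :=
    fun i j => coord (x i) (x j) (hd i j)
  have hx0 : ∀ m : Fin 3, x 0 m = 0 := by
    intro m
    simp [hx]
  have hl1 : ‖y 1 - y 0‖ ≤ 1 := by
    rw [← dist_eq_norm]
    exact hy 1 0
  have hx34 : x 4 - x 3 = L (y 4 - y 3) := by
    simp only [hx]
    rw [← map_sub]
    congr 1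
    abel
  have h41 : x 4 1 = x 3 1 := by
    have h1 : (x 4 - x 3) 1 = 0 := by
      rw [hx34]
      exact hn1
    rw [PiLp.sub_apply] at h1
    exact sub_eq_zero.1 h1
  have h40 : x 3 0 ≤ x 4 0 := by
    have h1 : 0 ≤ (x 4 - x 3) 0 := by
      rw [hx34]
      exact hn0
    rw [PiLp.sub_apply] at h1
    exact sub_nonneg.1 h1
  have hB : ∀ i j, ε * br (y 0) (y 1) (y i) (y j) =
      ‖y 1 - y 0‖ * (x i 0 * x j 1 - x i 1 * x j 0) := by
    intro i j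
    rw [← br_sub (y 0) (y 1) (y i) (y j) (y 0), ← hbr]
    exact br_axis _ _ _ _ _ (hx0 0) (hx0 1) (hx0 2) he0 he1 he2
  have hz : ∀ k, x k 0 ^ 2 + x k 1 ^ 2 + (x k 2 - 0) ^ 2 ≤ 1 := by
    intro k
    have := hco k 0
    rw [hx0, hx0, hx0, sub_zero, sub_zero] at this
    exact this
  have hz1 : ∀ k, x k 0 ^ 2 + x k 1 ^ 2 + (x k 2 - 0 - ‖y 1 - y 0‖) ^ 2 ≤ 1 := by
    intro k
    have := hco k 1
    have e0 : x 1 0 = 0 := he0
    have e1 : x 1 1 = 0 := he1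
    have e2 : x 1 2 = ‖y 1 - y 0‖ := he2
    rw [e0, e1, e2, sub_zero, sub_zero] at this
    rw [sub_zero]
    exact this
  have hp : ∀ i j, (x i 0 - x j 0) ^ 2 + (x i 1 - x j 1) ^ 2 ≤ 1 := by
    intro i j
    have := hco i j
    nlinarith [sq_nonneg (x i 2 - x j 2)]
  have hfin := h C hC 0 ‖y 1 - y 0‖ (x 2 0) (x 2 1) (x 2 2) (x 3 0) (x 3 1) (x 3 2) (x 4 0) (x 4 1)
    (x 4 2) (x 5 0) (x 5 1) (x 5 2) (norm_nonneg _) hl1 h41 h40 (hz 2) (hz1 2) (hz 3) (hz1 3)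
    (hz 4) (hz1 4) (hz 5) (hz1 5) (hp 2 3) (hp 2 4) (hp 2 5) (hp 3 4) (hp 3 5) (hp 4 5)
  have hs : ‖y 1 - y 0‖ * ((x 2 0 * x 3 1 - x 2 1 * x 3 0) + (x 3 0 * x 4 1 - x 3 1 * x 4 0) +
      (x 4 0 * x 5 1 - x 4 1 * x 5 0)) = ε * (br (y 0) (y 1) (y 2) (y 3) +
      br (y 0) (y 1) (y 3) (y 4) + br (y 0) (y 1) (y 4) (y 5)) := by
    rw [mul_add ε, mul_add ε, hB, hB, hB]
    ring
  rw [hs, abs_mul] at hfin
  have ha : |ε| = 1 := by
    rcases hε with rfl | rfl <;> simp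
  rw [ha, one_mul] at hfin
  exact hfin

end Pool.Agent.Helper17.Vol.PkPATH
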